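import Mathlib

/-!
# No circulant graph of order 15 has monophonic position number 2 and diameter 2
-/

namespace Pool.Agent.Results.MP_1f00fa_co.NoneOfOrderFifteen

open SimpleGraph

/-- The circulant graph `Cay(ℤ_n, C)` for a connection set `C` with `0 ∉ C` and `C = -C`. -/
def circ {n : ℕ} (C : Set (ZMod n)) (h0 : (0 : ZMod n) ∉ C) (hs : ∀ x ∈ C, -x ∈ C) :
    SimpleGraph (ZMod n) where
  Adj i j := j - i ∈ C
  symm := ⟨fun i j h => by have := hs _ h; rwa [neg_sub] at this⟩
  loopless := ⟨fun i h => by rw [sub_self] at h; exact h0 h⟩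

/-- `S` is a monophonic position set: no three distinct vertices of `S` lie on a common monophonic
path, i.e. on (the image of) a path embedded as an induced subgraph. -/
def IsMonoPos {V : Type} (G : SimpleGraph V) (S : Finset V) : Prop :=
  ∀ x ∈ S, ∀ y ∈ S, ∀ z ∈ S, x ≠ y → y ≠ z → x ≠ z →
    ∀ (m : ℕ) (f : pathGraph m ↪g G), ¬ (x ∈ Set.range f ∧ y ∈ Set.range f ∧ z ∈ Set.range f)

/-- The monophonic position number. -/
noncomputable def mp {V : Type} (G : SimpleGraph V) : ℕ :=
  sSup {n | ∃ S : Finset V, S.card = n ∧ IsMonoPos G S}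

/-- `G` is connected of diameter `d`. -/
def HasDiameter {V : Type} (G : SimpleGraph V) (d : ℕ) : Prop :=
  G.Connected ∧ (∀ u v, G.dist u v ≤ d) ∧ ∃ u v, G.dist u v = d

lemma card_le_mp {V : Type} [Fintype V] (G : SimpleGraph V) (S : Finset V) (h : IsMonoPos G S) :
    S.card ≤ mp G := by
  apply le_csSup
  · refine ⟨Fintype.card V, ?_⟩
    rintro n ⟨T, rfl, _⟩
    exact Finset.card_le_univ T
  · exact ⟨S, rfl, h⟩

lemma triangle_pos {V : Type} [DecidableEq V] (G : SimpleGraph V) (a b c : V) (hab : G.Adj a b)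
    (hbc : G.Adj b c) (hac : G.Adj a c) : IsMonoPos G {a, b, c} := by
  have hadj : ∀ x ∈ ({a, b, c} : Finset V), ∀ y ∈ ({a, b, c} : Finset V), x ≠ y → G.Adj x y := by
    intro x hx y hy hxy
    simp only [Finset.mem_insert, Finset.mem_singleton] at hx hy
    rcases hx with rfl | rfl | rfl <;> rcases hy with rfl | rfl | rfl
    all_goals first
      | exact absurd rfl hxy
      | assumption
      | exact G.symm.symm _ _ (by assumption)
  intro x hx y hy z hz hxy hyz hxz m f hf
  obtain ⟨⟨i, rfl⟩, ⟨j, rfl⟩, ⟨k, rfl⟩⟩ := hf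
  have h1 := f.map_adj_iff.mp (hadj _ hx _ hy hxy)
  have h2 := f.map_adj_iff.mp (hadj _ hy _ hz hyz)
  have h3 := f.map_adj_iff.mp (hadj _ hx _ hz hxz)
  rw [pathGraph_adj] at h1 h2 h3
  omega

/-- Three pairwise distinct vertices with the same neighbours form a monophonic position set. -/
lemma twins_pos {V : Type} [DecidableEq V] (G : SimpleGraph V) (a b c : V)
    (h1 : ∀ x, G.Adj a x ↔ G.Adj b x) (h2 : ∀ x, G.Adj b x ↔ G.Adj c x) :
    IsMonoPos G {a, b, c} := by
  have hadj : ∀ x ∈ ({a, b, c} : Finset V), ∀ y ∈ ({a, b, c} : Finset V), ∀ z,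
      G.Adj x z → G.Adj y z := by
    intro x hx y hy z hxz
    simp only [Finset.mem_insert, Finset.mem_singleton] at hx hy
    rcases hx with rfl | rfl | rfl <;> rcases hy with rfl | rfl | rfl
    · exact hxz
    · exact (h1 z).mp hxz
    · exact (h2 z).mp ((h1 z).mp hxz)
    · exact (h1 z).mpr hxz
    · exact hxz
    · exact (h2 z).mp hxz
    · exact (h1 z).mpr ((h2 z).mpr hxz)
    · exact (h2 z).mpr hxz
    · exact hxz
  intro x hx y hy z hz hxy hyz hxz m f hf
  obtain ⟨⟨i, rfl⟩, ⟨j, rfl⟩, ⟨k, rfl⟩⟩ := hf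
  have hij : i ≠ j := fun h => hxy (by rw [h])
  have hjk : j ≠ k := fun h => hyz (by rw [h])
  have hik : i ≠ k := fun h => hxz (by rw [h])
  have hij' : (i : ℕ) ≠ j := fun h => hij (Fin.ext h)
  have hjk' : (j : ℕ) ≠ k := fun h => hjk (Fin.ext h)
  have hik' : (i : ℕ) ≠ k := fun h => hik (Fin.ext h)
  have hi := i.2
  have hj := j.2
  have hk := k.2
  have hl : ∃ l : Fin m, (pathGraph m).Adj i l := by
    by_cases h : (i : ℕ) + 1 < m
    · exact ⟨⟨i + 1, h⟩, by rw [pathGraph_adj]; left; rfl⟩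
    · refine ⟨⟨i - 1, by omega⟩, ?_⟩
      rw [pathGraph_adj]
      right
      simp only
      omega
  obtain ⟨l, hl⟩ := hl
  have e1 : G.Adj (f i) (f l) := f.map_adj_iff.mpr hl
  have e2 := f.map_adj_iff.mp (hadj _ hx _ hy _ e1)
  have e3 := f.map_adj_iff.mp (hadj _ hx _ hz _ e1)
  rw [pathGraph_adj] at hl e2 e3
  omega

/-- The indicator of a symmetric set of residues mod 15 not containing `0`. -/
def P (b1 b2 b3 b4 b5 b6 b7 : Bool) (x : ℕ) : Bool :=
  match x % 15 with
  | 1 => b1
  | 2 => b2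
  | 3 => b3
  | 4 => b4
  | 5 => b5
  | 6 => b6
  | 7 => b7
  | 8 => b7
  | 9 => b6
  | 10 => b5
  | 11 => b4
  | 12 => b3
  | 13 => b2
  | 14 => b1
  | _ => false

/-- The test: if the set is sum-free and complete then it is invariant under adding 5. -/
def test (p : ℕ → Bool) : Bool :=
  (List.range 15).any (fun x => p x && (List.range 15).any (fun y => p y && p (x + y))) ||
  (List.range 15).any (fun z => z != 0 && !p z &&
    (List.range 15).all (fun x => !(p x && p (z + 15 - x)))) ||
  (List.range 15).all (fun x => p x == p (x + 5))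

lemma all_test : ∀ b1 b2 b3 b4 b5 b6 b7 : Bool, test (P b1 b2 b3 b4 b5 b6 b7) = true := by
  decide +kernel

lemma exists_P (C : Set (ZMod 15)) (h0 : (0 : ZMod 15) ∉ C) (hs : ∀ x ∈ C, -x ∈ C) :
    ∃ p : ℕ → Bool, test p = true ∧ (∀ x : ℕ, (x : ZMod 15) ∈ C ↔ p x = true) := by
  classical
  refine ⟨P (decide ((1 : ZMod 15) ∈ C)) (decide ((2 : ZMod 15) ∈ C)) (decide ((3 : ZMod 15) ∈ C))
    (decide ((4 : ZMod 15) ∈ C)) (decide ((5 : ZMod 15) ∈ C)) (decide ((6 : ZMod 15) ∈ C))
    (decide ((7 : ZMod 15) ∈ C)), all_test _ _ _ _ _ _ _, ?_⟩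
  intro x
  have hsym : ∀ x : ZMod 15, x ∈ C ↔ -x ∈ C := fun x =>
    ⟨hs x, fun h => by have := hs _ h; rwa [neg_neg] at this⟩
  have hx : (x : ZMod 15) = ((x % 15 : ℕ) : ZMod 15) := by
    rw [ZMod.natCast_mod]
  rw [hx]
  have hlt : x % 15 < 15 := Nat.mod_lt _ (by norm_num)
  unfold P
  generalize x % 15 = r at hlt ⊢
  have e8 : (8 : ZMod 15) ∈ C ↔ (7 : ZMod 15) ∈ C := by rw [hsym 8]; exact Iff.rfl
  have e9 : (9 : ZMod 15) ∈ C ↔ (6 : ZMod 15) ∈ C := by rw [hsym 9]; exact Iff.rfl
  have e10 : (10 : ZMod 15) ∈ C ↔ (5 : ZMod 15) ∈ C := by rw [hsym 10]; exact Iff.rfl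
  have e11 : (11 : ZMod 15) ∈ C ↔ (4 : ZMod 15) ∈ C := by rw [hsym 11]; exact Iff.rfl
  have e12 : (12 : ZMod 15) ∈ C ↔ (3 : ZMod 15) ∈ C := by rw [hsym 12]; exact Iff.rfl
  have e13 : (13 : ZMod 15) ∈ C ↔ (2 : ZMod 15) ∈ C := by rw [hsym 13]; exact Iff.rfl
  have e14 : (14 : ZMod 15) ∈ C ↔ (1 : ZMod 15) ∈ C := by rw [hsym 14]; exact Iff.rfl
  interval_cases r
  · simp [h0]
  · simp
  · simp
  · simp
  · simp
  · simp
  · simp
  · simp
  · simp [e8]
  · simp [e9]
  · simp [e10]
  · simp [e11]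
  · simp [e12]
  · simp [e13]
  · simp [e14]

/-- **No circulant graph of order 15 has monophonic position number 2 and diameter 2.**
Hence the statement of the problem fails at `n = 15`. -/
theorem result : (¬ ∃ (C : Set (ZMod 15)) (h0 : (0 : ZMod 15) ∉ C) (hs : ∀ x ∈ C, -x ∈ C),
      mp (circ C h0 hs) = 2 ∧ HasDiameter (circ C h0 hs) 2) ∧
    ¬ ∀ n : ℕ, 11 ≤ n → ∃ (C : Set (ZMod n)) (h0 : (0 : ZMod n) ∉ C) (hs : ∀ x ∈ C, -x ∈ C),
      mp (circ C h0 hs) = 2 ∧ HasDiameter (circ C h0 hs) 2 := by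
  have main : ¬ ∃ (C : Set (ZMod 15)) (h0 : (0 : ZMod 15) ∉ C) (hs : ∀ x ∈ C, -x ∈ C),
      mp (circ C h0 hs) = 2 ∧ HasDiameter (circ C h0 hs) 2 := by
    rintro ⟨C, h0, hs, hmp, hconn, hdiam, -⟩
    haveI : Fintype (ZMod 15) := ZMod.fintype 15
    obtain ⟨p, hp, hpC⟩ := exists_P C h0 hs
    have hcast : ∀ z : ZMod 15, ((z.val : ℕ) : ZMod 15) = z := fun z => ZMod.natCast_zmod_val z
    -- sum-free
    have hsf : ∀ x y : ZMod 15, x ∈ C → y ∈ C → x + y ∉ C := by
      intro x y hx hy hxy
      have h1 := triangle_pos (circ C h0 hs) 0 x (x + y)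
        (by show x - 0 ∈ C; rwa [sub_zero])
        (by show x + y - x ∈ C; rwa [add_sub_cancel_left])
        (by show x + y - 0 ∈ C; rwa [sub_zero])
      have h2 := card_le_mp _ _ h1
      rw [hmp, Finset.card_eq_three.mpr ⟨0, x, x + y, ?_, ?_, ?_, rfl⟩] at h2
      · omega
      · rintro rfl; exact h0 hx
      · intro h; rw [← h] at hxy; exact h0 hxy
      · intro h
        have : y = 0 := by
          have := congrArg (fun t => t - x) h
          simpa using this.symm
        rw [this] at hy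
        exact h0 hy
    -- complete
    have hco : ∀ z : ZMod 15, z ≠ 0 → z ∉ C → ∃ x ∈ C, z - x ∈ C := by
      intro z hz hzC
      obtain ⟨w, hw⟩ := hconn.exists_walk_length_eq_dist 0 z
      have hle : w.length ≤ 2 := by rw [hw]; exact hdiam 0 z
      cases w with
      | nil => exact absurd rfl hz
      | cons h q =>
        cases q with
        | nil =>
          have h' : z - 0 ∈ C := h
          rw [sub_zero] at h'
          exact absurd h' hzC
        | cons h' r =>
          cases r with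
          | nil =>
            rename_i v
            have h1 : v - 0 ∈ C := h
            rw [sub_zero] at h1
            exact ⟨v, h1, h'⟩
          | cons h'' s => simp at hle
    have hinv : ∀ z : ZMod 15, z ∈ C ↔ z + 5 ∈ C := by
      unfold test at hp
      rw [Bool.or_eq_true, Bool.or_eq_true] at hp
      rcases hp with (hp | hp) | hp
      · exfalso
        rw [List.any_eq_true] at hp
        obtain ⟨x, -, hx⟩ := hp
        rw [Bool.and_eq_true, List.any_eq_true] at hx
        obtain ⟨hx1, y, -, hy⟩ := hx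
        rw [Bool.and_eq_true] at hy
        apply hsf x y ((hpC x).mpr hx1) ((hpC y).mpr hy.1)
        have := (hpC (x + y)).mpr hy.2
        rwa [Nat.cast_add] at this
      · exfalso
        rw [List.any_eq_true] at hp
        obtain ⟨z, hz15, hz⟩ := hp
        rw [Bool.and_eq_true, Bool.and_eq_true, List.all_eq_true] at hz
        obtain ⟨⟨hz1, hz2⟩, hz3⟩ := hz
        have hz15' : z < 15 := List.mem_range.mp hz15
        have hz0 : (z : ZMod 15) ≠ 0 := by
          intro h
          rw [ZMod.natCast_eq_zero_iff] at h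
          have : z ≠ 0 := by simpa using hz1
          have := Nat.le_of_dvd (by omega) h
          omega
        have hzC : (z : ZMod 15) ∉ C := by
          intro h
          rw [(hpC z).mp h] at hz2
          simp at hz2
        obtain ⟨x, hx1, hx2⟩ := hco z hz0 hzC
        have hxlt := ZMod.val_lt x
        have h4 := hz3 x.val (List.mem_range.mpr hxlt)
        have h5 : p x.val = true := (hpC _).mp (by rw [hcast]; exact hx1)
        have h6 : p (z + 15 - x.val) = true := by
          apply (hpC _).mp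
          rw [Nat.cast_sub (by omega), hcast, Nat.cast_add]
          have : ((15 : ℕ) : ZMod 15) = 0 := by rfl
          rw [this, add_zero]
          exact hx2
        rw [h5, h6] at h4
        simp at h4
      · intro z
        rw [List.all_eq_true] at hp
        have h4 := hp z.val (List.mem_range.mpr (ZMod.val_lt z))
        have h5 : p z.val = p (z.val + 5) := by simpa using h4
        have h6 := hpC z.val
        have h7 := hpC (z.val + 5)
        rw [Nat.cast_add, hcast] at h7
        rw [hcast] at h6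
        have h8 : ((5 : ℕ) : ZMod 15) = 5 := by rfl
        rw [h8] at h7
        rw [h6, h7, h5]
    have h9 := twins_pos (circ C h0 hs) 0 5 10
      (by
        intro x
        show x - 0 ∈ C ↔ x - 5 ∈ C
        rw [hinv (x - 5), sub_zero, sub_add_cancel])
      (by
        intro x
        show x - 5 ∈ C ↔ x - 10 ∈ C
        rw [hinv (x - 10)]
        have : x - 10 + 5 = x - 5 := by ring
        rw [this])
    have h10 := card_le_mp _ _ h9
    rw [hmp, Finset.card_eq_three.mpr ⟨0, 5, 10, by decide, by decide, by decide, rfl⟩] at h10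
    omega
  exact ⟨main, fun h => main (h 15 (by norm_num))⟩

end Pool.Agent.Results.MP_1f00fa_co.NoneOfOrderFifteen
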